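import Pool.Agent.GP2.Final
import Pool.Agent.helper68.Gl.Inst2b

/-!
The answer to the question for all `1 ≤ p < ∞`: a Gleason part of the spectrum of `A_u(B)`, `B` the
open unit ball of complex `ℓ_p`, other than the part of the evaluation at the origin, with two
points in fibres over interior points, exists if and only if `p ≠ 1` and `p ≠ 2`.
-/

namespace Pool.Agent.Results.MP_b0899f_an.AllP

open Pool.Agent.helper68.Gl
open scoped ENNReal

/-- The point `φ` of the spectrum lies in a fibre over an interior point: the functional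
`l ↦ φ(l)` on the dual of `X` has norm smaller than `1`. -/
def InteriorFibre {X : Type} [NormedAddCommGroup X] [NormedSpace ℂ X] (φ : SpecAu X) : Prop :=
  ∃ c : ℝ, c < 1 ∧ ∀ (l : X →L[ℂ] ℂ) (f : AuBall X), (∀ x, f.1 x = l x) →
    ‖φ.val f‖ ≤ c * ‖l‖

/-- Let `1 ≤ p < ∞`. There are two different points of the spectrum of `A_u(B_{ℓ_p})`, both in
fibres over interior points, which lie in one Gleason part that is not the part of the evaluation
at the origin, if and only if `p ≠ 1` and `p ≠ 2`. -/
theorem result (p : ℝ≥0∞) [Fact (1 ≤ p)] (htop : p ≠ ∞) :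
    (∃ φ ψ : SpecAu (lp (fun _ : ℕ => ℂ) p), φ ≠ ψ ∧ InteriorFibre φ ∧ InteriorFibre ψ ∧
      SameGleason φ ψ ∧ ¬ SameGleason φ (evalZero (lp (fun _ : ℕ => ℂ) p))) ↔
    p ≠ 1 ∧ p ≠ 2 := by
  constructor
  · rintro ⟨φ, ψ, hne, -, -, h, h0⟩
    refine ⟨?_, ?_⟩
    · rintro rfl
      exact hne (singleton_parts conjApprox_l1 h h0)
    · rintro rfl
      exact hne (singleton_parts (conjApprox_hilbert (starₗᵢ ℂ)) h h0)
  · rintro ⟨h1, h2⟩
    have hint : ∀ φ : SpecAu (lp (fun _ : ℕ => ℂ) p), InFibreZero φ → InteriorFibre φ := by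
      intro φ h
      refine ⟨0, one_pos, fun l f hf => ?_⟩
      rw [h l f hf, norm_zero, zero_mul]
    have key : Shared (lp (fun _ : ℕ => ℂ) p) := by
      have hp1 : 1 < p := lt_of_le_of_ne (Fact.out (p := 1 ≤ p)) (Ne.symm h1)
      rcases lt_or_ge p 2 with hlt | hge
      · exact Pool.Agent.GP2.shared_lp hp1 hlt
      · have hp2 : 2 < p.toReal := by
          have := (ENNReal.toReal_lt_toReal (by norm_num) htop).2 (lt_of_le_of_ne hge (Ne.symm h2))
          simpa using this
        rcases lt_or_ge p.toReal 3 with h3 | h3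
        · exact shared_two hp2 h3
        · exact shared_three h3
    obtain ⟨φ, ψ, hne, hφ, hψ, h, h0⟩ := key
    exact ⟨φ, ψ, hne, hint φ hφ, hint ψ hψ, h, h0⟩

end Pool.Agent.Results.MP_b0899f_an.AllP
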