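import Pool.Agent.helper68.Gl.Inst2b

/-!
For `2 < p < ∞` there is a Gleason part of the spectrum of `A_u(B)`, `B` the open unit ball of
complex `ℓ_p`, which is not the part of the evaluation at the origin and which contains two
points of the fibre over the origin.
-/

namespace Pool.Agent.Results.MP_b0899f_an.SharedPart

open Pool.Agent.helper68.Gl
open scoped ENNReal

/-- For `2 < p < ∞` there are two different points of the spectrum of `A_u(B_{ℓ_p})` in the
fibre over `0` which lie in one Gleason part, and this is not the part of the evaluation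
at `0`. -/
theorem result (p : ℝ≥0∞) [Fact (1 ≤ p)] (h2 : 2 < p) (htop : p ≠ ∞) :
    ∃ φ ψ : SpecAu (lp (fun _ : ℕ => ℂ) p), φ ≠ ψ ∧ InFibreZero φ ∧ InFibreZero ψ ∧
      SameGleason φ ψ ∧ ¬ SameGleason φ (evalZero (lp (fun _ : ℕ => ℂ) p)) := by
  have hp2 : 2 < p.toReal := by
    have := (ENNReal.toReal_lt_toReal (by norm_num) htop).2 h2
    simpa using this
  rcases lt_or_ge p.toReal 3 with h3 | h3
  · exact shared_two hp2 h3
  · exact shared_three h3

end Pool.Agent.Results.MP_b0899f_an.SharedPart
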