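import Pool.Agent.helper68.Gl.Stmt

/-!
For `p = 1` and `p = 2`, every Gleason part of the spectrum of `A_u(B)`, `B` the open unit ball
of complex `ℓ_p`, other than the part of the evaluation at the origin is a single point.
-/

namespace Pool.Agent.Results.MP_b0899f_an.SingletonParts

open Pool.Agent.helper68.Gl
open scoped ENNReal

/-- If `p = 1` or `p = 2` and `φ`, `ψ` are points of the spectrum of `A_u(B_{ℓ_p})` in the same
Gleason part, which is not the part of the evaluation at the origin, then `φ = ψ`. -/
theorem result (p : ℝ≥0∞) [Fact (1 ≤ p)] (hp : p = 1 ∨ p = 2)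
    (φ ψ : SpecAu (lp (fun _ : ℕ => ℂ) p)) (h : SameGleason φ ψ)
    (h0 : ¬ SameGleason φ (evalZero (lp (fun _ : ℕ => ℂ) p))) : φ = ψ := by
  rcases hp with rfl | rfl
  · exact singleton_parts conjApprox_l1 h h0
  · exact singleton_parts (conjApprox_hilbert (starₗᵢ ℂ)) h h0

end Pool.Agent.Results.MP_b0899f_an.SingletonParts
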